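import Pool.Agent.Q147.MM.Stm

/-! # Project MM (helper147), jobs A4 and A7 (helper26) -/

set_option autoImplicit false

namespace Pool.Agent.Q26.MM

open Finset Pool.Agent.Q147.MM

open scoped Classical in
theorem upto_succ (B : Set ℕ) (w : ℕ) :
    upto B (w + 1) = if w + 1 ∈ B then insert (w + 1) (upto B w) else upto B w := by
  ext a
  split_ifs with h
  · rw [mem_insert, mem_upto, mem_upto]
    constructor
    · rintro ⟨⟨h1, h2⟩, h3⟩
      rcases Nat.lt_or_ge a (w + 1) with h4 | h4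
      · exact Or.inr ⟨⟨h1, by omega⟩, h3⟩
      · exact Or.inl (by omega)
    · rintro (rfl | ⟨⟨h1, h2⟩, h3⟩)
      · exact ⟨⟨by omega, le_rfl⟩, h⟩
      · exact ⟨⟨h1, by omega⟩, h3⟩
  · rw [mem_upto, mem_upto]
    constructor
    · rintro ⟨⟨h1, h2⟩, h3⟩
      refine ⟨⟨h1, ?_⟩, h3⟩
      rcases Nat.lt_or_ge a (w + 1) with h4 | h4
      · omega
      · exact absurd (by rwa [show a = w + 1 by omega] at h3) h
    · rintro ⟨⟨h1, h2⟩, h3⟩
      exact ⟨⟨h1, by omega⟩, h3⟩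

theorem not_mem_upto (B : Set ℕ) (w : ℕ) : w + 1 ∉ upto B w := fun h => by
  have := (mem_upto.1 h).1.2
  omega

/-- job A4 -/
theorem t_A4 : Pool.Agent.Q147.MM.S_A4 := by
  classical
  intro B f g y1 z hy1 hyz hg hf hfz hg1
  have hanti : ∀ a b : ℕ, 1 ≤ a → a ≤ b → b ≤ z → f b ≤ f a := by
    intro a b ha hab hbz
    induction b, hab using Nat.le_induction with
    | base => exact le_rfl
    | succ b hb ih => exact (hf b (by omega) (by omega)).trans (ih (by omega))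
  have key : ∀ w : ℕ, y1 ≤ w → w ≤ z → ∑ y ∈ Ioc y1 w, (g y - g (y - 1)) * f y +
      ((cnt B w : ℝ) - g w) * f w ≤ ∑ a ∈ upto B w, f a := by
    intro w hw
    induction w, hw using Nat.le_induction with
    | base =>
      intro hz
      rw [Ioc_self, sum_empty, zero_add]
      have h1 : ∑ a ∈ upto B y1, f y1 ≤ ∑ a ∈ upto B y1, f a :=
        sum_le_sum fun a ha => hanti a y1 (mem_upto.1 ha).1.1 (mem_upto.1 ha).1.2 hyz
      rw [sum_const, nsmul_eq_mul] at h1
      have h2 : 0 ≤ f y1 := hfz.trans (hanti y1 z hy1 hyz le_rfl)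
      have h3 : 0 ≤ g y1 * f y1 := mul_nonneg hg1 h2
      have h4 : ((cnt B y1 : ℝ) - g y1) * f y1 = (cnt B y1 : ℝ) * f y1 - g y1 * f y1 := by ring
      rw [h4]
      unfold cnt
      linarith
    | succ w hw ih =>
      intro hz
      have hih := ih (by omega)
      rw [Finset.sum_Ioc_succ_top hw, Nat.add_sub_cancel]
      have h1 : ((cnt B w : ℝ) - g w) * f (w + 1) ≤ ((cnt B w : ℝ) - g w) * f w := by
        refine mul_le_mul_of_nonneg_left (hf w (by omega) (by omega)) ?_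
        have := hg w hw (by omega)
        linarith
      unfold cnt at hih h1 ⊢
      rw [upto_succ]
      split_ifs with h
      · rw [sum_insert (not_mem_upto B w), card_insert_of_notMem (not_mem_upto B w)]
        push_cast
        linarith
      · linarith
  have h1 := key z hyz le_rfl
  have h2 : 0 ≤ ((cnt B z : ℝ) - g z) * f z := by
    refine mul_nonneg ?_ hfz
    have := hg z hyz le_rfl
    linarith
  linarith

/-- job A7 -/
theorem t_A7 : Pool.Agent.Q147.MM.S_A7 := by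
  unfold S_A7
  obtain ⟨c, hc⟩ : ∃ c : ℝ, c = (1 / 2 : ℝ) ^ (-(9 / 40) : ℝ) := ⟨_, rfl⟩
  have hc0 : 0 < c := by rw [hc]; positivity
  have hc40 : c ^ 40 = 512 := by
    rw [hc, ← Real.rpow_natCast, ← Real.rpow_mul (by norm_num)]
    have h1 : (-(9 / 40) : ℝ) * ((40 : ℕ) : ℝ) = -((9 : ℕ) : ℝ) := by push_cast; norm_num
    rw [h1, Real.rpow_neg (by norm_num), Real.rpow_natCast]
    norm_num
  have hc1 : (1.168 : ℝ) ≤ c := by
    by_contra h
    push Not at h
    have h1 : c ^ 40 < (1.168 : ℝ) ^ 40 := pow_lt_pow_left₀ h hc0.le (by norm_num)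
    rw [hc40] at h1
    norm_num at h1
  have h1 : ∀ i : ℕ, (1 / 2 : ℝ) ^ ((i : ℝ) + 1 - 9 / 40) / ((i : ℝ) + 1 - 9 / 40) =
      c * ((1 / 2 : ℝ) ^ (i + 1) / ((i : ℝ) + 1 - 9 / 40)) := by
    intro i
    have h2 : ((i : ℝ) + 1 - 9 / 40) = -(9 / 40) + ((i + 1 : ℕ) : ℝ) := by push_cast; ring
    have h3 : (1 / 2 : ℝ) ^ ((i : ℝ) + 1 - 9 / 40) = c * (1 / 2 : ℝ) ^ (i + 1) := by
      rw [h2, Real.rpow_add (by norm_num), Real.rpow_natCast, hc]
    rw [h3, mul_div_assoc]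
  rw [sum_congr rfl fun i _ => h1 i, ← mul_sum]
  have h4 : (1 : ℝ) < 1.168 * ∑ i ∈ range 10, (1 / 2 : ℝ) ^ (i + 1) / ((i : ℝ) + 1 - 9 / 40) := by
    simp only [sum_range_succ, sum_range_zero]
    push_cast
    norm_num
  have h5 : 0 ≤ ∑ i ∈ range 10, (1 / 2 : ℝ) ^ (i + 1) / ((i : ℝ) + 1 - 9 / 40) := by
    refine sum_nonneg fun i _ => div_nonneg (by positivity) ?_
    have : (0 : ℝ) ≤ i := Nat.cast_nonneg i
    linarith
  exact h4.trans_le (mul_le_mul_of_nonneg_right hc1 h5)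

end Pool.Agent.Q26.MM
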