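import Pool.Agent.Q26.MM.A4

/-! # Project MM (helper147), job A7 (helper26): `t_A7` is proved in `Pool.Agent.Q26.MM.A4`. -/
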